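import Pool.Agent.W618.PC.Stms

/-!
# Project PC, part ARC1: a path thinned out to one with interval fibres
-/

set_option autoImplicit false

open Set Topology Filter

namespace Pool.Agent.W366.PC.Arc1

open Pool.Agent.W618.PC

/-- the closed subsets of `[0,1]` which contain the ends, such that `σ` takes the same value at the
ends of every gap -/
structure KK {X : Type} (σ : ℝ → X) (K : Set ℝ) : Prop where
  closed : IsClosed K
  sub : K ⊆ Icc 0 1
  zero : (0 : ℝ) ∈ K
  one : (1 : ℝ) ∈ K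
  gap : ∀ a ∈ K, ∀ b ∈ K, a < b → (∀ c ∈ K, a < c → ¬ c < b) → σ a = σ b

theorem KK_univ {X : Type} (σ : ℝ → X) : KK σ (Icc 0 1) where
  closed := isClosed_Icc
  sub := subset_rfl
  zero := ⟨le_rfl, zero_le_one⟩
  one := ⟨zero_le_one, le_rfl⟩
  gap := by
    intro a ha b hb hab h
    exact absurd (show (a + b) / 2 < b by linarith)
      (h ((a + b) / 2) ⟨by linarith [ha.1, hb.1], by linarith [ha.2, hb.2]⟩ (by linarith))

section

variable {X : Type} [MetricSpace X] {σ : ℝ → X}

theorem KK_sInter (hσ : Continuous σ) (c : Set (Set ℝ)) (hc : ∀ K ∈ c, KK σ K)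
    (hch : IsChain (· ⊆ ·) c) (hne : c.Nonempty) : KK σ (⋂₀ c) := by
  obtain ⟨K0, hK0⟩ := hne
  refine ⟨isClosed_sInter fun K hK => (hc K hK).closed,
    (sInter_subset_of_mem hK0).trans (hc K0 hK0).sub,
    fun K hK => (hc K hK).zero, fun K hK => (hc K hK).one, ?_⟩
  intro a ha b hb hab hgap
  by_contra hne
  have hd : 0 < dist (σ a) (σ b) := dist_pos.2 hne
  obtain ⟨e1, he1, h1⟩ := Metric.continuous_iff.1 hσ a (dist (σ a) (σ b) / 2) (by linarith)
  obtain ⟨e2, he2, h2⟩ := Metric.continuous_iff.1 hσ b (dist (σ a) (σ b) / 2) (by linarith)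
  set e : ℝ := min (min e1 e2) (b - a) / 3 with he
  have hmin : 0 < min (min e1 e2) (b - a) := lt_min (lt_min he1 he2) (by linarith)
  have he0 : 0 < e := by rw [he]; linarith
  have hee1 : e < e1 := by
    have : min (min e1 e2) (b - a) ≤ e1 := (min_le_left _ _).trans (min_le_left _ _)
    rw [he]; linarith
  have hee2 : e < e2 := by
    have : min (min e1 e2) (b - a) ≤ e2 := (min_le_left _ _).trans (min_le_right _ _)
    rw [he]; linarith
  have heab : 3 * e ≤ b - a := by
    have : min (min e1 e2) (b - a) ≤ b - a := min_le_right _ _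
    rw [he]; linarith
  -- one set of the chain misses the middle
  have hcomp : ∃ K ∈ c, Icc (a + e) (b - e) ∩ K = ∅ := by
    haveI : Nonempty c := ⟨⟨K0, hK0⟩⟩
    have h3 : (Icc (a + e) (b - e) ∩ ⋂ i : c, (i : Set ℝ)) = ∅ := by
      rw [Set.eq_empty_iff_forall_notMem]
      rintro x ⟨hx1, hx2⟩
      have hx3 : x ∈ ⋂₀ c := by
        intro K hK
        exact Set.mem_iInter.1 hx2 ⟨K, hK⟩
      exact hgap x hx3 (by linarith [hx1.1]) (by linarith [hx1.2])
    have h4 : Directed (· ⊇ ·) (fun i : c => (i : Set ℝ)) := by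
      rintro ⟨K1, hK1⟩ ⟨K2, hK2⟩
      rcases hch.total hK1 hK2 with h | h
      · exact ⟨⟨K1, hK1⟩, subset_rfl, h⟩
      · exact ⟨⟨K2, hK2⟩, h, subset_rfl⟩
    obtain ⟨⟨K, hK⟩, h5⟩ := isCompact_Icc.elim_directed_family_closed (fun i : c => (i : Set ℝ))
      (fun i => (hc i.1 i.2).closed) h3 h4
    exact ⟨K, hK, h5⟩
  obtain ⟨K, hK, hdis⟩ := hcomp
  have hKc := (hc K hK).closed
  have haK : a ∈ K := ha K hK
  have hbK : b ∈ K := hb K hK
  have hA : IsCompact (K ∩ Icc a (a + e)) := isCompact_Icc.inter_left hKc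
  have hB : IsCompact (K ∩ Icc (b - e) b) := isCompact_Icc.inter_left hKc
  have hAn : (K ∩ Icc a (a + e)).Nonempty := ⟨a, haK, le_rfl, by linarith⟩
  have hBn : (K ∩ Icc (b - e) b).Nonempty := ⟨b, hbK, by linarith, le_rfl⟩
  have ha1 := hA.sSup_mem hAn
  have hb1 := hB.sInf_mem hBn
  set a1 := sSup (K ∩ Icc a (a + e)) with ha1d
  set b1 := sInf (K ∩ Icc (b - e) b) with hb1d
  have hgap1 : σ a1 = σ b1 := by
    refine (hc K hK).gap a1 ha1.1 b1 hb1.1 (by linarith [ha1.2.2, hb1.2.1]) ?_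
    intro x hx hx1 hx2
    rcases le_total x (a + e) with h | h
    · have : x ≤ a1 := le_csSup hA.bddAbove ⟨hx, by linarith [ha1.2.1], h⟩
      linarith
    · rcases le_total (b - e) x with h' | h'
      · have : b1 ≤ x := csInf_le hB.bddBelow ⟨hx, h', by linarith [hb1.2.2]⟩
        linarith
      · have : x ∈ Icc (a + e) (b - e) ∩ K := ⟨⟨h, h'⟩, hx⟩
        rw [hdis] at this
        exact this
  have d1 := h1 a1 (by rw [Real.dist_eq, abs_lt]; constructor <;> linarith [ha1.2.1, ha1.2.2])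
  have d2 := h2 b1 (by rw [Real.dist_eq, abs_lt]; constructor <;> linarith [hb1.2.1, hb1.2.2])
  rw [hgap1] at d1
  have d3 := dist_triangle_left (σ a) (σ b) (σ b1)
  linarith

theorem exists_min (hσ : Continuous σ) : ∃ K, Minimal (fun K => KK σ K) K := by
  obtain ⟨m, hm⟩ := zorn_superset {K | KK σ K} (by
    intro c hc hch
    rcases c.eq_empty_or_nonempty with h | h
    · subst h
      exact ⟨Icc 0 1, KK_univ σ, fun s hs => absurd hs (Set.notMem_empty s)⟩
    · exact ⟨⋂₀ c, KK_sInter hσ c (fun K hK => hc hK) hch h, fun s hs => sInter_subset_of_mem hs⟩)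
  exact ⟨m, hm⟩

/-- the fibres of `σ` on a minimal set -/
theorem min_fib {K : Set ℝ} (hK : Minimal (fun K => KK σ K) K) {s t : ℝ} (hs : s ∈ K)
    (ht : t ∈ K) (hst : s < t) (h : σ s = σ t) : ∀ x ∈ K, s < x → ¬ x < t := by
  have hs1 := hK.1.sub hs
  have ht1 := hK.1.sub ht
  have h1 : KK σ (K \ Ioo s t) := by
    refine ⟨hK.1.closed.sdiff isOpen_Ioo, fun x hx => hK.1.sub hx.1,
      ⟨hK.1.zero, fun h => absurd h.1 (not_lt.2 hs1.1)⟩,
      ⟨hK.1.one, fun h => absurd h.2 (not_lt.2 ht1.2)⟩, ?_⟩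
    intro a ha b hb hab hgap
    rcases le_or_gt b s with hbs | hbs
    · refine hK.1.gap a ha.1 b hb.1 hab fun c hc hac hcb => ?_
      exact hgap c ⟨hc, fun h => absurd h.1 (not_lt.2 (hcb.le.trans hbs))⟩ hac hcb
    · rcases le_or_gt t a with hta | hta
      · refine hK.1.gap a ha.1 b hb.1 hab fun c hc hac hcb => ?_
        exact hgap c ⟨hc, fun h => absurd h.2 (not_lt.2 (hta.trans hac.le))⟩ hac hcb
      · have has : a ≤ s := by
          by_contra h'
          push Not at h'
          exact ha.2 ⟨h', hta⟩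
        have htb : t ≤ b := by
          by_contra h'
          push Not at h'
          exact hb.2 ⟨hbs, h'⟩
        have ea : a = s := by
          rcases has.lt_or_eq with h' | h'
          · exact absurd hbs (hgap s ⟨hs, fun h => absurd h.1 (lt_irrefl s)⟩ h')
          · exact h'
        have eb : b = t := by
          rcases htb.lt_or_eq with h' | h'
          · exact absurd h' (hgap t ⟨ht, fun h => absurd h.2 (lt_irrefl t)⟩ hta)
          · exact h'.symm
        rw [ea, eb, h]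
  have h2 := hK.2 h1 sdiff_subset
  intro x hx hsx hxt
  exact (h2 hx).2 ⟨hsx, hxt⟩

end

theorem arc1 : S_ARC1 := by
  intro X _ σ hσ
  obtain ⟨K, hK⟩ := exists_min hσ
  have hKK := hK.1
  set m : ℝ → ℝ := fun u => sSup (K ∩ Icc 0 u) with hm
  have hcpt : ∀ u, IsCompact (K ∩ Icc 0 u) := fun u => isCompact_Icc.inter_left hKK.closed
  have hmem : ∀ u, 0 ≤ u → m u ∈ K ∩ Icc 0 u := fun u hu =>
    (hcpt u).sSup_mem ⟨0, hKK.zero, le_rfl, hu⟩
  have hle : ∀ u x, x ∈ K → x ≤ u → x ≤ m u := by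
    intro u x hx hxu
    exact le_csSup (hcpt u).bddAbove ⟨hx, (hKK.sub hx).1, hxu⟩
  have hmono : ∀ s t : ℝ, 0 ≤ s → s ≤ t → m s ≤ m t := by
    intro s t hs hst
    exact hle t (m s) (hmem s hs).1 ((hmem s hs).2.2.trans hst)
  -- the basic alternative
  have key : ∀ u w : ℝ, 0 ≤ u → u ≤ w → m u = m w ∨
      ∃ k1 ∈ K, u ≤ k1 ∧ k1 ≤ m w ∧ m w ≤ w ∧ σ (m u) = σ k1 ∧ ∀ x ∈ K, u ≤ x → x ≤ w → k1 ≤ x := by
    intro u w hu huw
    rcases (K ∩ Icc u w).eq_empty_or_nonempty with h | h
    · left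
      apply le_antisymm (hmono u w hu huw)
      have h1 := hmem w (hu.trans huw)
      apply hle u _ h1.1
      by_contra h2
      push Not at h2
      have : m w ∈ K ∩ Icc u w := ⟨h1.1, h2.le, h1.2.2⟩
      rw [h] at this
      exact this
    · right
      have hc : IsCompact (K ∩ Icc u w) := isCompact_Icc.inter_left hKK.closed
      have hk := hc.sInf_mem h
      set k1 := sInf (K ∩ Icc u w) with hk1
      have hmin : ∀ x ∈ K, u ≤ x → x ≤ w → k1 ≤ x := fun x hx h1 h2 =>
        csInf_le hc.bddBelow ⟨hx, h1, h2⟩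
      refine ⟨k1, hk.1, hk.2.1, hle w k1 hk.1 hk.2.2, (hmem w (hu.trans huw)).2.2, ?_, hmin⟩
      have h1 := hmem u hu
      rcases (h1.2.2.trans hk.2.1).lt_or_eq with h2 | h2
      · refine hKK.gap _ h1.1 _ hk.1 h2 fun c hc1 hc2 hc3 => ?_
        rcases le_total c u with h3 | h3
        · exact absurd hc2 (not_lt.2 (hle u c hc1 h3))
        · exact absurd hc3 (not_lt.2 (hmin c hc1 h3 (hc3.le.trans hk.2.2)))
      · rw [h2]
  refine ⟨m, fun s t hs hst _ => hmono s t hs hst, ?_, ?_, ?_, ?_, ?_⟩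
  · intro t ht
    exact hKK.sub (hmem t ht.1).1
  · have h1 := (hmem 0 le_rfl).2
    have h2 : m 0 = 0 := le_antisymm h1.2 h1.1
    rw [h2]
  · have h1 := (hmem 1 zero_le_one).2
    have h2 : m 1 = 1 := le_antisymm h1.2 (hle 1 1 hKK.one le_rfl)
    rw [h2]
  · have hu : UniformContinuousOn σ (Icc 0 1) :=
      isCompact_Icc.uniformContinuousOn_of_continuous hσ.continuousOn
    have hmain : ∀ ε > 0, ∃ δ > 0, ∀ u w : ℝ, 0 ≤ u → u ≤ w → w ≤ 1 → w - u < δ →
        dist (σ (m u)) (σ (m w)) < ε := by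
      intro ε hε
      obtain ⟨δ, hδ, h1⟩ := Metric.uniformContinuousOn_iff.1 hu ε hε
      refine ⟨δ, hδ, fun u w hu huw hw hd => ?_⟩
      rcases key u w hu huw with h2 | ⟨k1, hk1, h3, h4, h5, h6, -⟩
      · rw [h2, dist_self]
        exact hε
      · rw [h6]
        refine h1 k1 (hKK.sub hk1) (m w) (hKK.sub (hmem w (hu.trans huw)).1) ?_
        rw [Real.dist_eq, abs_lt]
        constructor <;> linarith
    rw [Metric.continuousOn_iff]
    intro b hb ε hε
    obtain ⟨δ, hδ, h1⟩ := hmain ε hε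
    refine ⟨δ, hδ, fun a ha hab => ?_⟩
    rw [Real.dist_eq, abs_lt] at hab
    rcases le_total a b with h | h
    · exact h1 a b ha.1 h hb.2 (by linarith)
    · rw [dist_comm]
      exact h1 b a hb.1 h ha.2 (by linarith)
  · intro s t hs hst ht hf r hsr hrt
    have hr0 : 0 ≤ r := hs.trans hsr
    have m1 := hmono s r hs hsr
    have m2 := hmono r t hr0 hrt
    rcases key s t hs hst with h2 | ⟨k1, hk1, h3, h4, h5, h6, h7⟩
    · have : m r = m s := le_antisymm (m2.trans h2.ge) m1
      rw [this]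
    · have hkt := hmem t (hs.trans hst)
      have hkr := hmem r hr0
      have h8 : σ k1 = σ (m t) := by rw [← h6, hf]
      rcases lt_or_ge r k1 with h9 | h9
      · have : m r ≤ m s := by
          apply hle s _ hkr.1
          by_contra h10
          push Not at h10
          have := h7 (m r) hkr.1 h10.le (hkr.2.2.trans hrt)
          linarith [hkr.2.2]
        rw [le_antisymm this m1]
      · rcases lt_or_ge r (m t) with h10 | h10
        · have h11 : k1 ≤ m r := hle r k1 hk1 h9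
          rcases h11.lt_or_eq with h12 | h12
          · exact absurd (hkr.2.2.trans_lt h10)
              (min_fib hK hk1 hkt.1 (h9.trans_lt h10) h8 (m r) hkr.1 h12)
          · rw [← h12, ← h6]
        · have : m t ≤ m r := hle r (m t) hkt.1 h10
          rw [le_antisymm m2 this, hf]

end Pool.Agent.W366.PC.Arc1
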