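import Pool.Agent.W618.PC.Stms

/-!
# Project PC, part ARC2: a path with interval fibres is reparametrised to an arc
-/

set_option autoImplicit false

open Set Topology Filter

namespace Pool.Agent.W366.PC.Arc2

open Pool.Agent.W618.PC

section

variable {X : Type} [MetricSpace X]

/-- distance to the past -/
noncomputable def dd (F : ℝ → X) (a : ℝ) (x : X) : ℝ := min 1 (Metric.infDist x (F '' Icc 0 a))

theorem dd_cont (F : ℝ → X) (a : ℝ) : Continuous (dd F a) :=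
  continuous_const.min (Metric.continuous_infDist_pt _)

theorem dd_nonneg (F : ℝ → X) (a : ℝ) (x : X) : 0 ≤ dd F a x :=
  le_min zero_le_one Metric.infDist_nonneg

theorem dd_le (F : ℝ → X) (a : ℝ) (x : X) : dd F a x ≤ 1 := min_le_left _ _

theorem dd_past (F : ℝ → X) {a r : ℝ} (h0 : 0 ≤ r) (h : r ≤ a) : dd F a (F r) = 0 := by
  unfold dd
  rw [Metric.infDist_zero_of_mem (mem_image_of_mem F (show r ∈ Icc 0 a from ⟨h0, h⟩))]
  exact min_eq_right zero_le_one

/-- the running maximum -/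
noncomputable def MM (F : ℝ → X) (a t : ℝ) : ℝ :=
  sSup ((fun r => dd F a (F (min r t))) '' Icc 0 1)

theorem MM_bdd (F : ℝ → X) (a t : ℝ) :
    BddAbove ((fun r => dd F a (F (min r t))) '' Icc (0 : ℝ) 1) := by
  refine ⟨1, ?_⟩
  rintro _ ⟨r, _, rfl⟩
  exact dd_le F a _

theorem MM_ne (F : ℝ → X) (a t : ℝ) :
    ((fun r => dd F a (F (min r t))) '' Icc (0 : ℝ) 1).Nonempty :=
  ⟨_, mem_image_of_mem _ ⟨le_rfl, zero_le_one⟩⟩

theorem MM_cont {F : ℝ → X} (hF : Continuous F) (a : ℝ) : Continuous (MM F a) := by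
  unfold MM
  refine IsCompact.continuous_sSup (f := fun t r => dd F a (F (min r t))) isCompact_Icc ?_
  have h : Continuous fun p : ℝ × ℝ => dd F a (F (min p.2 p.1)) :=
    (dd_cont F a).comp (hF.comp (continuous_snd.min continuous_fst))
  exact h

theorem MM_le (F : ℝ → X) (a t : ℝ) : MM F a t ≤ 1 := by
  refine csSup_le (MM_ne F a t) ?_
  rintro _ ⟨r, _, rfl⟩
  exact dd_le F a _

theorem le_MM (F : ℝ → X) (a : ℝ) {t r : ℝ} (h0 : 0 ≤ r) (hr : r ≤ t) (h1 : r ≤ 1) :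
    dd F a (F r) ≤ MM F a t := by
  refine le_csSup (MM_bdd F a t) ⟨r, ⟨h0, h1⟩, ?_⟩
  simp only [min_eq_left hr]

theorem MM_nonneg (F : ℝ → X) (a : ℝ) {t : ℝ} (h0 : 0 ≤ t) : 0 ≤ MM F a t :=
  (dd_nonneg F a _).trans (le_MM F a le_rfl h0 zero_le_one)

theorem MM_mono (F : ℝ → X) (a : ℝ) {s t : ℝ} (h0 : 0 ≤ s) (hst : s ≤ t) :
    MM F a s ≤ MM F a t := by
  refine csSup_le (MM_ne F a s) ?_
  rintro _ ⟨r, hr, rfl⟩
  exact le_MM F a (le_min hr.1 h0) ((min_le_right _ _).trans hst) ((min_le_left _ _).trans hr.2)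

theorem MM_zero (F : ℝ → X) {a t : ℝ} (h0 : 0 ≤ t) (hta : t ≤ a) : MM F a t = 0 := by
  refine le_antisymm (csSup_le (MM_ne F a t) ?_) (MM_nonneg F a h0)
  rintro _ ⟨r, hr, rfl⟩
  exact (dd_past F (le_min hr.1 h0) ((min_le_right _ _).trans hta)).le

/-- constant on the fibres -/
theorem MM_const (F : ℝ → X) (a : ℝ) {s t : ℝ} (h0 : 0 ≤ s) (hst : s ≤ t) (ht : t ≤ 1)
    (hc : ∀ r, s ≤ r → r ≤ t → F r = F s) : MM F a t = MM F a s := by
  refine le_antisymm (csSup_le (MM_ne F a t) ?_) (MM_mono F a h0 hst)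
  rintro _ ⟨r, hr, rfl⟩
  simp only
  rcases le_total (min r t) s with h | h
  · exact le_MM F a (le_min hr.1 (h0.trans hst)) h ((min_le_left _ _).trans hr.2)
  · rw [hc _ h (min_le_right _ _)]
    exact le_MM F a h0 le_rfl (hst.trans ht)

/-- the monotone function -/
noncomputable def ze (F : ℝ → X) (t : ℝ) : ℝ :=
  ∑' k : ℕ, (1 / 2 : ℝ) ^ k * MM F (TopologicalSpace.denseSeq ℝ k) (max 0 t)

theorem ze_summable (F : ℝ → X) (t : ℝ) :
    Summable fun k : ℕ => (1 / 2 : ℝ) ^ k * MM F (TopologicalSpace.denseSeq ℝ k) (max 0 t) := by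
  refine Summable.of_nonneg_of_le (fun k => ?_) (fun k => ?_)
    (summable_geometric_of_lt_one (by norm_num) (by norm_num : (1 / 2 : ℝ) < 1))
  · exact mul_nonneg (by positivity) (MM_nonneg F _ (le_max_left _ _))
  · exact mul_le_of_le_one_right (by positivity) (MM_le F _ _)

theorem ze_cont {F : ℝ → X} (hF : Continuous F) : Continuous (ze F) := by
  refine continuous_tsum (u := fun k : ℕ => (1 / 2 : ℝ) ^ k) (fun k => ?_)
    (summable_geometric_of_lt_one (by norm_num) (by norm_num : (1 / 2 : ℝ) < 1)) ?_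
  · exact continuous_const.mul ((MM_cont hF _).comp (continuous_const.max continuous_id))
  · intro k t
    rw [Real.norm_of_nonneg (mul_nonneg (by positivity) (MM_nonneg F _ (le_max_left _ _)))]
    exact mul_le_of_le_one_right (by positivity) (MM_le F _ _)

theorem ze_mono (F : ℝ → X) {s t : ℝ} (h0 : 0 ≤ s) (hst : s ≤ t) : ze F s ≤ ze F t := by
  refine Summable.tsum_le_tsum (fun k => ?_) (ze_summable F s) (ze_summable F t)
  refine mul_le_mul_of_nonneg_left ?_ (by positivity)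
  rw [max_eq_right h0, max_eq_right (h0.trans hst)]
  exact MM_mono F _ h0 hst

theorem ze_const (F : ℝ → X) {s t : ℝ} (h0 : 0 ≤ s) (hst : s ≤ t) (ht : t ≤ 1)
    (hc : ∀ r, s ≤ r → r ≤ t → F r = F s) : ze F t = ze F s := by
  unfold ze
  refine tsum_congr fun k => ?_
  rw [max_eq_right h0, max_eq_right (h0.trans hst), MM_const F _ h0 hst ht hc]

theorem ze_lt {F : ℝ → X} (hF : Continuous F) {s t : ℝ} (h0 : 0 ≤ s) (hst : s < t) (ht : t ≤ 1)
    (hc : ∀ s t : ℝ, 0 ≤ s → s ≤ t → t ≤ 1 → F s = F t → ∀ r, s ≤ r → r ≤ t → F r = F s)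
    (hne : F s ≠ F t) : ze F s < ze F t := by
  -- the first point of the fibre of `F t`
  have hcl : IsCompact (Icc s t ∩ F ⁻¹' {F t}) :=
    isCompact_Icc.inter_right (isClosed_singleton.preimage hF)
  have hn : (Icc s t ∩ F ⁻¹' {F t}).Nonempty := ⟨t, ⟨hst.le, le_rfl⟩, rfl⟩
  have h1 := hcl.sInf_mem hn
  set t0 := sInf (Icc s t ∩ F ⁻¹' {F t}) with ht0
  have hst0 : s < t0 := by
    rcases h1.1.1.lt_or_eq with h | h
    · exact h
    · exfalso
      apply hne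
      have := h1.2
      rw [← h] at this
      exact this
  obtain ⟨a, ha⟩ := (TopologicalSpace.denseRange_denseSeq ℝ).exists_mem_open isOpen_Ioo
    (nonempty_Ioo.2 hst0)
  have hpast : F t ∉ F '' Icc 0 (TopologicalSpace.denseSeq ℝ a) := by
    rintro ⟨r, hr, hrt⟩
    have hr1 : r ≤ t := hr.2.trans (ha.2.le.trans h1.1.2)
    rcases le_total r s with hrs | hrs
    · apply hne
      have h3 := hc r t hr.1 hr1 ht hrt s hrs hst.le
      rw [h3, hrt]
    · have h4 : t0 ≤ r := csInf_le hcl.bddBelow ⟨⟨hrs, hr1⟩, hrt⟩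
      linarith [hr.2, ha.2]
  have ha0 : 0 ≤ TopologicalSpace.denseSeq ℝ a := h0.trans ha.1.le
  have hcc : IsClosed (F '' Icc 0 (TopologicalSpace.denseSeq ℝ a)) :=
    (isCompact_Icc.image hF).isClosed
  have hpos : 0 < Metric.infDist (F t) (F '' Icc 0 (TopologicalSpace.denseSeq ℝ a)) :=
    (hcc.notMem_iff_infDist_pos ⟨F 0, mem_image_of_mem F ⟨le_rfl, ha0⟩⟩).1 hpast
  refine Summable.tsum_lt_tsum (i := a) (fun k => ?_) ?_ (ze_summable F s) (ze_summable F t)
  · refine mul_le_mul_of_nonneg_left ?_ (by positivity)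
    rw [max_eq_right h0, max_eq_right (h0.trans hst.le)]
    exact MM_mono F _ h0 hst.le
  · refine mul_lt_mul_of_pos_left ?_ (by positivity)
    rw [max_eq_right h0, max_eq_right (h0.trans hst.le), MM_zero F h0 ha.1.le]
    refine lt_of_lt_of_le ?_ (le_MM F _ (h0.trans hst.le) le_rfl ht)
    exact lt_min one_pos hpos

end

theorem arc2 : S_ARC2 := by
  intro X _ f hf hne hc
  -- a continuous extension
  set F : ℝ → X := fun t => f (max 0 (min 1 t)) with hFd
  have hF : Continuous F := by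
    refine hf.comp_continuous (continuous_const.max (continuous_const.min continuous_id)) ?_
    intro t
    exact ⟨le_max_left _ _, max_le zero_le_one (min_le_left _ _)⟩
  have hFf : ∀ t ∈ Icc (0 : ℝ) 1, F t = f t := by
    intro t ht
    simp only [hFd, min_eq_right ht.2, max_eq_right ht.1]
  have h01 : (0 : ℝ) ∈ Icc (0 : ℝ) 1 := ⟨le_rfl, zero_le_one⟩
  have h11 : (1 : ℝ) ∈ Icc (0 : ℝ) 1 := ⟨zero_le_one, le_rfl⟩
  have hcF : ∀ s t : ℝ, 0 ≤ s → s ≤ t → t ≤ 1 → F s = F t → ∀ r, s ≤ r → r ≤ t → F r = F s := by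
    intro s t hs hst ht h r hsr hrt
    rw [hFf s ⟨hs, hst.trans ht⟩, hFf t ⟨hs.trans hst, ht⟩] at h
    rw [hFf s ⟨hs, hst.trans ht⟩, hFf r ⟨hs.trans hsr, hrt.trans ht⟩]
    exact hc s t hs hst ht h r hsr hrt
  have hz : ∀ s ∈ Icc (0 : ℝ) 1, ∀ t ∈ Icc (0 : ℝ) 1, ze F s = ze F t → f s = f t := by
    intro s hs t ht h
    by_contra hne'
    rw [← hFf s hs, ← hFf t ht] at hne'
    rcases lt_trichotomy s t with h1 | h1 | h1
    · exact absurd h (ze_lt hF hs.1 h1 ht.2 hcF hne').ne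
    · exact hne' (by rw [h1])
    · exact absurd h.symm (ze_lt hF ht.1 h1 hs.2 hcF (Ne.symm hne')).ne
  have hz' : ∀ s ∈ Icc (0 : ℝ) 1, ∀ t ∈ Icc (0 : ℝ) 1, f s = f t → ze F s = ze F t := by
    intro s hs t ht h
    rw [← hFf s hs, ← hFf t ht] at h
    rcases le_total s t with h1 | h1
    · exact (ze_const F hs.1 h1 ht.2 (hcF s t hs.1 h1 ht.2 h)).symm
    · exact ze_const F ht.1 h1 hs.2 (hcF t s ht.1 h1 hs.2 h.symm)
  have hlt : ze F 0 < ze F 1 := by
    refine ze_lt hF le_rfl zero_lt_one le_rfl hcF ?_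
    rw [hFf 0 h01, hFf 1 h11]
    exact hne
  have hd : 0 < ze F 1 - ze F 0 := by linarith
  -- normalisation
  set Z : ℝ → ℝ := fun t => (ze F t - ze F 0) / (ze F 1 - ze F 0) with hZd
  have hZc : Continuous Z := ((ze_cont hF).sub continuous_const).div_const _
  have hZ0 : Z 0 = 0 := by simp only [hZd, sub_self, zero_div]
  have hZ1 : Z 1 = 1 := by simp only [hZd]; exact div_self hd.ne'
  have hZmono : ∀ s t : ℝ, 0 ≤ s → s ≤ t → Z s ≤ Z t := by
    intro s t hs hst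
    exact div_le_div_of_nonneg_right (by linarith [ze_mono F hs hst]) hd.le
  have hZiff : ∀ s ∈ Icc (0 : ℝ) 1, ∀ t ∈ Icc (0 : ℝ) 1, Z s = Z t → f s = f t := by
    intro s hs t ht h
    simp only [hZd] at h
    rw [div_left_inj' hd.ne'] at h
    exact hz s hs t ht (by linarith)
  have hZiff' : ∀ s ∈ Icc (0 : ℝ) 1, ∀ t ∈ Icc (0 : ℝ) 1, f s = f t → Z s = Z t := by
    intro s hs t ht h
    simp only [hZd]
    rw [hz' s hs t ht h]
  have hZmem : ∀ t ∈ Icc (0 : ℝ) 1, Z t ∈ Icc (0 : ℝ) 1 := by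
    intro t ht
    constructor
    · rw [← hZ0]; exact hZmono 0 t le_rfl ht.1
    · rw [← hZ1]; exact hZmono t 1 ht.1 ht.2
  have hsurj : ∀ u ∈ Icc (0 : ℝ) 1, ∃ t ∈ Icc (0 : ℝ) 1, Z t = u := by
    intro u hu
    have h1 := intermediate_value_Icc (zero_le_one' ℝ) (hZc.continuousOn (s := Icc 0 1))
    rw [hZ0, hZ1] at h1
    obtain ⟨t, ht, h2⟩ := h1 hu
    exact ⟨t, ht, h2⟩
  choose! ψ hψ1 hψ2 using hsurj
  -- the arc on the unit interval
  let αI : Icc (0 : ℝ) 1 → X := fun u => f (ψ u)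
  let ZI : Icc (0 : ℝ) 1 → Icc (0 : ℝ) 1 := fun t => ⟨Z t, hZmem t t.2⟩
  have hZIc : Continuous ZI := (hZc.comp continuous_subtype_val).subtype_mk _
  have hZIs : Function.Surjective ZI := by
    intro u
    exact ⟨⟨ψ u, hψ1 u u.2⟩, Subtype.ext (hψ2 u u.2)⟩
  have hq : IsQuotientMap ZI := hZIc.isClosedMap.isQuotientMap hZIc hZIs
  have hαZ : αI ∘ ZI = fun t : Icc (0 : ℝ) 1 => f t := by
    funext t
    exact hZiff _ (hψ1 _ (hZmem t t.2)) t t.2 (hψ2 _ (hZmem t t.2))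
  have hαc : Continuous αI := by
    rw [hq.continuous_iff, hαZ]
    exact continuousOn_iff_continuous_domRestrict.1 hf
  have hαinj : Function.Injective αI := by
    intro u v h
    have h1 := hZiff' _ (hψ1 u u.2) _ (hψ1 v v.2) h
    rw [hψ2 u u.2, hψ2 v v.2] at h1
    exact Subtype.ext h1
  obtain ⟨θ, hθ⟩ := ContinuousMap.exists_extension (hαc.isClosedEmbedding hαinj)
    (⟨Subtype.val, continuous_subtype_val⟩ : C(Icc (0 : ℝ) 1, ℝ))
  have hproj : ∀ t (ht : t ∈ Icc (0 : ℝ) 1), projIcc 0 1 zero_le_one t = ⟨t, ht⟩ := fun t ht =>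
    projIcc_of_mem zero_le_one ht
  refine ⟨fun t => αI (projIcc 0 1 zero_le_one t), ψ, θ, hαc.comp continuous_projIcc,
    θ.continuous, ?_, ?_, ?_, ?_, ?_⟩
  · intro t ht
    simp only
    rw [hproj t ht]
    exact DFunLike.congr_fun hθ ⟨t, ht⟩
  · simp only
    rw [hproj 0 h01]
    exact hZiff _ (hψ1 0 h01) 0 h01 (by rw [hψ2 0 h01, hZ0])
  · simp only
    rw [hproj 1 h11]
    exact hZiff _ (hψ1 1 h11) 1 h11 (by rw [hψ2 1 h11, hZ1])
  · intro s t hs hst ht
    by_contra h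
    push Not at h
    have hs' : s ∈ Icc (0 : ℝ) 1 := ⟨hs, hst.trans ht⟩
    have ht' : t ∈ Icc (0 : ℝ) 1 := ⟨hs.trans hst, ht⟩
    have h1 := hZmono _ _ (hψ1 t ht').1 h.le
    rw [hψ2 s hs', hψ2 t ht'] at h1
    rw [le_antisymm hst h1] at h
    exact lt_irrefl _ h
  · intro t ht
    refine ⟨hψ1 t ht, ?_⟩
    simp only
    rw [hproj t ht]

end Pool.Agent.W366.PC.Arc2
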