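import Pool.Agent.W770.PC.CutStms

set_option autoImplicit false

/-!
PC-cutR: cutting off to a half plane
-/

open MeasureTheory Set Filter Topology
open scoped ENNReal NNReal

namespace Pool.Agent.W366.PC

open Pool.Agent.W770.PC

/-- the rotation of the plane -/
noncomputable def rho (ω : ℝ × ℝ) : ℝ × ℝ →ₗ[ℝ] ℝ × ℝ :=
  Matrix.toLin (Module.Basis.finTwoProd ℝ) (Module.Basis.finTwoProd ℝ)
    !![ω.1, -ω.2; ω.2, ω.1]

theorem rho_apply (ω w : ℝ × ℝ) :
    rho ω w = (ω.1 * w.1 + -ω.2 * w.2, ω.2 * w.1 + ω.1 * w.2) := by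
  rw [rho, Matrix.toLin_finTwoProd_apply]

theorem rho_det {ω : ℝ × ℝ} (hω : ω.1 ^ 2 + ω.2 ^ 2 = 1) : LinearMap.det (rho ω) = 1 := by
  rw [rho, LinearMap.det_toLin, Matrix.det_fin_two_of]
  linarith

theorem rho_mp {ω : ℝ × ℝ} (hω : ω.1 ^ 2 + ω.2 ^ 2 = 1) :
    MeasurePreserving (rho ω) volume volume := by
  refine ⟨(LinearMap.continuous_of_finiteDimensional (rho ω)).measurable, ?_⟩
  rw [Measure.map_linearMap_addHaar_eq_smul_addHaar volume (by rw [rho_det hω]; exact one_ne_zero),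
    rho_det hω]
  simp

theorem norm_ee (x : ℝ) : ‖ee x‖ = 1 := by
  rw [ee]
  exact Complex.norm_exp_ofReal_mul_I x

theorem ee_add (x y : ℝ) : ee (x + y) = ee x * ee y := by
  rw [ee, ee, ee, ← Complex.exp_add]
  congr 1
  push_cast
  ring

theorem continuous_ee : Continuous ee := by
  unfold ee
  fun_prop

theorem measurableSet_box (w : ℝ × ℝ) (r : ℝ) : MeasurableSet (box w r) :=
  measurableSet_Icc.prod measurableSet_Icc

theorem isCompact_box (w : ℝ × ℝ) (r : ℝ) : IsCompact (box w r) :=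
  isCompact_Icc.prod isCompact_Icc

theorem measurableSet_hp (ω : ℝ × ℝ) (c : ℝ) : MeasurableSet (hp ω c) :=
  measurableSet_le measurable_const (by fun_prop)

theorem EE_continuous (h : ℝ × ℝ → ℝ) (f : ℝ × ℝ → ℂ) (R M : ℝ)
    (hh : Continuous h) (hf : Measurable f) (hM : ∀ y, ‖f y‖ ≤ M)
    (hR : ∀ y, y ∉ box 0 R → f y = 0) :
    Continuous (fun z : (ℝ × ℝ) × ℝ => EE h f z.1 z.2) := by
  unfold EE
  refine continuous_of_dominated (bound := (box 0 R).indicator (fun _ => M)) ?_ ?_ ?_ ?_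
  · intro z
    refine (hf.mul ?_).aestronglyMeasurable
    refine (continuous_ee.comp ?_).measurable
    fun_prop
  · intro z
    refine Eventually.of_forall fun y => ?_
    rw [norm_mul, norm_ee, mul_one]
    by_cases hy : y ∈ box 0 R
    · rw [indicator_of_mem hy]
      exact hM y
    · rw [indicator_of_notMem hy, hR y hy, norm_zero]
  · rw [integrable_indicator_iff (measurableSet_box 0 R)]
    exact integrableOn_const (isCompact_box 0 R).measure_lt_top.ne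
  · refine Eventually.of_forall fun y => ?_
    refine continuous_const.mul (continuous_ee.comp ?_)
    fun_prop

/-- a line is a null set -/
theorem line_null {ω : ℝ × ℝ} (hω : ω.1 ^ 2 + ω.2 ^ 2 = 1) (c : ℝ) :
    volume {y : ℝ × ℝ | ω.1 * y.1 + ω.2 * y.2 = c} = 0 := by
  have hm : MeasurableSet {y : ℝ × ℝ | ω.1 * y.1 + ω.2 * y.2 = c} :=
    measurableSet_eq_fun (by fun_prop) measurable_const
  rw [← (rho_mp hω).measure_preimage hm.nullMeasurableSet]
  have he : (rho ω) ⁻¹' {y : ℝ × ℝ | ω.1 * y.1 + ω.2 * y.2 = c} = {c} ×ˢ (univ : Set ℝ) := by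
    ext w
    rw [mem_preimage, rho_apply, Set.mem_ofPred_eq, mem_prod, mem_singleton_iff]
    have h1 : ω.1 * (ω.1 * w.1 + -ω.2 * w.2) + ω.2 * (ω.2 * w.1 + ω.1 * w.2) =
        (ω.1 ^ 2 + ω.2 ^ 2) * w.1 := by ring
    rw [h1, hω, one_mul]
    simp
  rw [he, Measure.volume_eq_prod, Measure.prod_prod]
  simp

theorem slice (p C1 : ℝ)
    (H : ∀ (α : Type) (_ : MeasurableSpace α) (ν : Measure α),
      IsFiniteMeasure ν → ∀ (s : α → ℝ) (G : α → ℂ) (M : ℝ), Measurable s → Measurable G →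
      (∀ a, |s a| ≤ M) → (∀ a, ‖G a‖ ≤ M) → ∀ c : ℝ, ν {a | s a = c} = 0 →
      ∫⁻ x : ℝ, ‖∫ a in {a | c ≤ s a}, G a * ee (x * s a) ∂ν‖ₑ ^ p ≤
        ENNReal.ofReal C1 * ∫⁻ x : ℝ, ‖∫ a, G a * ee (x * s a) ∂ν‖ₑ ^ p)
    (h : ℝ × ℝ → ℝ) (f : ℝ × ℝ → ℂ) (R M : ℝ)
    (hh : Continuous h) (hf : Measurable f) (hM : ∀ y, ‖f y‖ ≤ M)
    (hR : ∀ y, y ∉ box 0 R → f y = 0) (ω : ℝ × ℝ) (c : ℝ) (hω : ω.1 ^ 2 + ω.2 ^ 2 = 1)
    (t τ' : ℝ) :
    ∫⁻ τ : ℝ, ‖EE h ((hp ω c).indicator f) (rho ω (τ, τ')) t‖ₑ ^ p ≤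
      ENNReal.ofReal C1 * ∫⁻ τ : ℝ, ‖EE h f (rho ω (τ, τ')) t‖ₑ ^ p := by
  have hfin : IsFiniteMeasure (volume.restrict (box 0 R)) :=
    ⟨by rw [Measure.restrict_apply_univ]; exact (isCompact_box 0 R).measure_lt_top⟩
  set s : ℝ × ℝ → ℝ := (box 0 R).indicator (fun y => ω.1 * y.1 + ω.2 * y.2) with hs
  set G : ℝ × ℝ → ℂ := fun y => f y * ee (τ' * (-ω.2 * y.1 + ω.1 * y.2) + t * h y) with hG
  have hsm : Measurable s := by
    refine Measurable.indicator ?_ (measurableSet_box 0 R)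
    fun_prop
  have hGm : Measurable G := by
    refine hf.mul (continuous_ee.comp ?_).measurable
    fun_prop
  have hω1 : |ω.1| ≤ 1 := by
    rw [← sq_le_one_iff_abs_le_one]
    nlinarith [sq_nonneg ω.2]
  have hω2 : |ω.2| ≤ 1 := by
    rw [← sq_le_one_iff_abs_le_one]
    nlinarith [sq_nonneg ω.1]
  have hsin : ∀ y ∈ box 0 R, s y = ω.1 * y.1 + ω.2 * y.2 := fun y hy => indicator_of_mem hy _
  have hsb : ∀ y, |s y| ≤ max M (2 * |R|) := by
    intro y
    by_cases hy : y ∈ box 0 R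
    · rw [hsin y hy]
      obtain ⟨⟨h1, h2⟩, h3, h4⟩ := hy
      simp only [Prod.fst_zero, Prod.snd_zero, zero_sub, zero_add] at h1 h2 h3 h4
      have h5 : |y.1| ≤ |R| := (abs_le.2 ⟨h1, h2⟩).trans (le_abs_self R)
      have h6 : |y.2| ≤ |R| := (abs_le.2 ⟨h3, h4⟩).trans (le_abs_self R)
      refine le_trans ?_ (le_max_right _ _)
      refine (abs_add_le _ _).trans ?_
      rw [abs_mul, abs_mul]
      have h7 : |ω.1| * |y.1| ≤ 1 * |R| := mul_le_mul hω1 h5 (abs_nonneg _) zero_le_one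
      have h8 : |ω.2| * |y.2| ≤ 1 * |R| := mul_le_mul hω2 h6 (abs_nonneg _) zero_le_one
      linarith
    · rw [hs, indicator_of_notMem hy, abs_zero]
      exact le_trans (by positivity) (le_max_right _ _)
  have hGb : ∀ y, ‖G y‖ ≤ max M (2 * |R|) := by
    intro y
    rw [hG]
    simp only
    rw [norm_mul, norm_ee, mul_one]
    exact (hM y).trans (le_max_left _ _)
  have hnull : (volume.restrict (box 0 R)) {a | s a = c} = 0 := by
    rw [Measure.restrict_apply (measurableSet_eq_fun hsm measurable_const)]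
    refine measure_mono_null ?_ (line_null hω c)
    rintro y ⟨hy1, hy2⟩
    rw [Set.mem_ofPred_eq] at hy1 ⊢
    rw [← hsin y hy2]
    exact hy1
  have hkey := H (ℝ × ℝ) inferInstance (volume.restrict (box 0 R)) hfin s G
    (max M (2 * |R|)) hsm hGm hsb hGb c hnull
  have hexp : ∀ (x : ℝ) (y : ℝ × ℝ), y ∈ box 0 R → G y * ee (x * s y) =
      f y * ee ((rho ω (x, τ')).1 * y.1 + (rho ω (x, τ')).2 * y.2 + t * h y) := by
    intro x y hy
    rw [hG, hsin y hy, rho_apply]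
    simp only
    rw [mul_assoc, ← ee_add]
    congr 2
    ring
  have hb : ∀ F : ℝ × ℝ → ℂ, (∀ y, y ∉ box 0 R → F y = 0) →
      ∫ y, F y = ∫ y in box 0 R, F y := fun F hF =>
    (setIntegral_eq_integral_of_forall_compl_eq_zero hF).symm
  have e1 : ∀ x : ℝ, ∫ a, G a * ee (x * s a) ∂(volume.restrict (box 0 R)) =
      EE h f (rho ω (x, τ')) t := by
    intro x
    rw [EE, hb _ (fun y hy => by rw [hR y hy, zero_mul])]
    exact setIntegral_congr_fun (measurableSet_box 0 R) fun y hy => hexp x y hy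
  have e2 : ∀ x : ℝ, ∫ a in {a | c ≤ s a}, G a * ee (x * s a) ∂(volume.restrict (box 0 R)) =
      EE h ((hp ω c).indicator f) (rho ω (x, τ')) t := by
    intro x
    have hms : MeasurableSet {a | c ≤ s a} := measurableSet_le measurable_const hsm
    have h0 : ∀ y, y ∉ box 0 R → (hp ω c).indicator f y = 0 := by
      intro y hy
      by_cases h2 : y ∈ hp ω c
      · rw [indicator_of_mem h2, hR y hy]
      · rw [indicator_of_notMem h2]
    rw [← integral_indicator hms, EE, hb _ (fun y hy => by rw [h0 y hy, zero_mul])]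
    refine setIntegral_congr_fun (measurableSet_box 0 R) fun y hy => ?_
    by_cases hc : c ≤ ω.1 * y.1 + ω.2 * y.2
    · have h1 : y ∈ {a | c ≤ s a} := by
        rw [Set.mem_ofPred_eq, hsin y hy]
        exact hc
      have h2 : y ∈ hp ω c := hc
      rw [indicator_of_mem h1, indicator_of_mem h2]
      exact hexp x y hy
    · have h1 : y ∉ {a | c ≤ s a} := by
        rw [Set.mem_ofPred_eq, hsin y hy]
        exact hc
      have h2 : y ∉ hp ω c := hc
      rw [indicator_of_notMem h1, indicator_of_notMem h2, zero_mul]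
  simp only [e1, e2] at hkey
  exact hkey

/-- PC-cutR -/
theorem cutR_thm (h1 : S_rieszA) : S_cutR := by
  intro p hp1
  obtain ⟨C1, hC1, H⟩ := h1 p hp1
  refine ⟨C1 ^ (1 / p), Real.rpow_nonneg hC1 _, ?_⟩
  intro h f R M hh hf hM hR ω c hω
  have hp0 : 0 < p := by linarith
  set f' : ℝ × ℝ → ℂ := (hp ω c).indicator f with hf'
  have hf'm : Measurable f' := hf.indicator (measurableSet_hp ω c)
  have hM' : ∀ y, ‖f' y‖ ≤ M := by
    intro y
    by_cases h2 : y ∈ hp ω c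
    · rw [hf', indicator_of_mem h2]
      exact hM y
    · rw [hf', indicator_of_notMem h2, norm_zero]
      exact (norm_nonneg _).trans (hM y)
  have hR' : ∀ y, y ∉ box 0 R → f' y = 0 := by
    intro y hy
    by_cases h2 : y ∈ hp ω c
    · rw [hf', indicator_of_mem h2, hR y hy]
    · rw [hf', indicator_of_notMem h2]
  have hc := EE_continuous h f R M hh hf hM hR
  have hc' := EE_continuous h f' R M hh hf'm hM' hR'
  -- change of variables and Tonelli for fixed time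
  have hslice : ∀ (F : ℝ × ℝ → ℂ), Continuous (fun z : (ℝ × ℝ) × ℝ => EE h F z.1 z.2) →
      ∀ t : ℝ, ∫⁻ x : ℝ × ℝ, ‖EE h F x t‖ₑ ^ p =
        ∫⁻ τ' : ℝ, ∫⁻ τ : ℝ, ‖EE h F (rho ω (τ, τ')) t‖ₑ ^ p := by
    intro F hF t
    have hF1 : Continuous (fun x : ℝ × ℝ => EE h F x t) :=
      hF.comp (continuous_id.prodMk continuous_const)
    have hF2 : Measurable (fun x : ℝ × ℝ => ‖EE h F x t‖ₑ ^ p) :=
      (hF1.measurable.enorm).pow_const p
    have hF3 : Measurable (fun x : ℝ × ℝ => ‖EE h F (rho ω x) t‖ₑ ^ p) :=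
      hF2.comp (rho_mp hω).measurable
    rw [← (rho_mp hω).lintegral_comp hF2]
    exact lintegral_prod_symm' _ hF3
  have hmeas : ∀ (F : ℝ × ℝ → ℂ), Continuous (fun z : (ℝ × ℝ) × ℝ => EE h F z.1 z.2) →
      Measurable (fun z : (ℝ × ℝ) × ℝ => ‖EE h F z.1 z.2‖ₑ ^ p) := fun F hF =>
    (hF.measurable.enorm).pow_const p
  have hmain : ∫⁻ z : (ℝ × ℝ) × ℝ, ‖EE h f' z.1 z.2‖ₑ ^ p ≤
      ENNReal.ofReal C1 * ∫⁻ z : (ℝ × ℝ) × ℝ, ‖EE h f z.1 z.2‖ₑ ^ p := by
    have e1 : ∫⁻ z : (ℝ × ℝ) × ℝ, ‖EE h f' z.1 z.2‖ₑ ^ p =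
        ∫⁻ t : ℝ, ∫⁻ x : ℝ × ℝ, ‖EE h f' x t‖ₑ ^ p := lintegral_prod_symm' _ (hmeas f' hc')
    have e2 : ∫⁻ z : (ℝ × ℝ) × ℝ, ‖EE h f z.1 z.2‖ₑ ^ p =
        ∫⁻ t : ℝ, ∫⁻ x : ℝ × ℝ, ‖EE h f x t‖ₑ ^ p := lintegral_prod_symm' _ (hmeas f hc)
    rw [e1, e2, ← lintegral_const_mul' _ _ ENNReal.ofReal_ne_top]
    refine lintegral_mono fun t => ?_
    simp only
    rw [hslice f' hc' t, hslice f hc t, ← lintegral_const_mul' _ _ ENNReal.ofReal_ne_top]
    refine lintegral_mono fun τ' => ?_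
    exact slice p C1 H h f R M hh hf hM hR ω c hω t τ'
  have hp2 : ENNReal.ofReal p ≠ 0 := by
    rw [Ne, ENNReal.ofReal_eq_zero, not_le]
    exact hp0
  rw [eLpNorm_eq_lintegral_rpow_enorm_toReal hp2 ENNReal.ofReal_ne_top,
    eLpNorm_eq_lintegral_rpow_enorm_toReal hp2 ENNReal.ofReal_ne_top,
    ENNReal.toReal_ofReal hp0.le, ← ENNReal.ofReal_rpow_of_nonneg hC1 (by positivity),
    ← ENNReal.mul_rpow_of_nonneg _ _ (by positivity)]
  exact ENNReal.rpow_le_rpow hmain (by positivity)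

end Pool.Agent.W366.PC
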