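import Pool.Agent.W770.PC.SphStms
import Pool.Agent.H805R3.Kk.AreaP

set_option autoImplicit false

open MeasureTheory Set Filter Topology
open scoped ENNReal NNReal

namespace Pool.Agent.W366.PC

open Pool.Agent.W770.PC

lemma det_pair (a b c d : ℝ) :
    ((a • ContinuousLinearMap.fst ℝ ℝ ℝ + b • ContinuousLinearMap.snd ℝ ℝ ℝ).prod
      (c • ContinuousLinearMap.fst ℝ ℝ ℝ + d • ContinuousLinearMap.snd ℝ ℝ ℝ)).det =
      a * d - b * c := by
  unfold ContinuousLinearMap.det
  rw [← LinearMap.det_toMatrix (Module.Basis.finTwoProd ℝ), Matrix.det_fin_two]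
  simp [LinearMap.toMatrix_apply, Module.Basis.finTwoProd]

theorem sarea_thm (h1 : S_sfib) (h2 : S_sd) (h3 : S_der) (h4 : S_hh) : S_sarea := by
  classical
  intro D
  obtain ⟨N, hN⟩ := h1 D
  refine ⟨N, Nat.cast_nonneg N, ?_⟩
  intro A B hA hB φ hφ
  set g := sf A B with hgdef
  have hg : ContDiff ℝ (⊤ : ℕ∞) g := (h2 D A B hA hB).1
  obtain ⟨hg1, hg2, -, -, -, hsym, -, -, -⟩ := h3 g hg
  obtain ⟨-, -, -, -, hd1, -, -, -, -⟩ := h3 (d1 g) hg1
  obtain ⟨-, -, -, -, hd2, -, -, -, -⟩ := h3 (d2 g) hg2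
  let Φ : ℝ × ℝ → ℝ × ℝ := fun y => (d1 g y, d2 g y)
  have hΦ : ∀ y, HasFDerivAt Φ
      (((d1 (d1 g) y) • ContinuousLinearMap.fst ℝ ℝ ℝ +
        (d2 (d1 g) y) • ContinuousLinearMap.snd ℝ ℝ ℝ).prod
      ((d1 (d2 g) y) • ContinuousLinearMap.fst ℝ ℝ ℝ +
        (d2 (d2 g) y) • ContinuousLinearMap.snd ℝ ℝ ℝ)) y := fun y => (hd1 y).prodMk (hd2 y)
  have hdet : ∀ y, (fderiv ℝ Φ y).det = det2 g y := by
    intro y
    rw [(hΦ y).fderiv, det_pair, hsym y]
    unfold det2
    ring
  have hDm : MeasurableSet Dm := by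
    unfold Dm box
    exact measurableSet_Icc.prod measurableSet_Icc
  let P : ℕ → Set (ℝ × ℝ) := fun k => if k = 0 then Dm else ∅
  have hPU : (⋃ k, P k) = Dm := by
    apply Set.Subset.antisymm
    · apply iUnion_subset
      intro k
      by_cases hk : k = 0
      · simp [P, hk]
      · simp [P, hk]
    · intro x hx
      refine mem_iUnion.2 ⟨0, ?_⟩
      simp only [P, if_pos]
      exact hx
  have key := Pool.Agent.H805R3.Kk.lintegral_comp_det_leP (volume : Measure (ℝ × ℝ)) (φ := Φ)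
    (φ' := fderiv ℝ Φ) (P := P) (N := N) (by
      intro k
      by_cases hk : k = 0
      · simp only [P, if_pos hk]
        exact hDm
      · simp only [P, if_neg hk]
        exact MeasurableSet.empty) (by
      intro i j hij
      by_cases hi : i = 0
      · have hj : j ≠ 0 := fun h => hij (hi.trans h.symm)
        simp only [Function.onFun, P, if_neg hj]
        exact disjoint_empty _
      · simp only [Function.onFun, P, if_neg hi]
        exact empty_disjoint _) (by
      intro k x _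
      have := (hΦ x).hasFDerivWithinAt (s := P k)
      rwa [← (hΦ x).fderiv] at this) (measurable_fderiv ℝ Φ) (by
      filter_upwards [hN A B hA hB] with v hv
      refine le_trans (Set.encard_le_encard ?_) hv
      rintro x ⟨hx1, hx2, -⟩
      rw [hPU] at hx1
      exact ⟨h4.2.1 hx1, hx2⟩) (H := φ) hφ
  rw [hPU] at key
  simp only [hdet] at key
  rw [ENNReal.ofReal_natCast]
  exact key

end Pool.Agent.W366.PC
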