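import Pool.Agent.W770.PC.Stms

set_option autoImplicit false

namespace Pool.Agent.W366.PC

open Pool.Agent.W770.PC
open scoped BigOperators

lemma sc_mul (s C C' : ℝ) (f g : ℝ → ℂ) (u : ℝ) (hs : 0 < s) (hf : ContDiff ℝ (⊤ : ℕ∞) f)
    (hg : ContDiff ℝ (⊤ : ℕ∞) g) (h1 : Sc s C f u) (h2 : Sc s C' g u) :
    Sc s (8 * C * C') (fun u => f u * g u) u := by
  have hC : 0 ≤ C := by
    have := h1 0 (by norm_num)
    rw [pow_zero, mul_one] at this
    exact (norm_nonneg _).trans this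
  have hC' : 0 ≤ C' := by
    have := h2 0 (by norm_num)
    rw [pow_zero, mul_one] at this
    exact (norm_nonneg _).trans this
  intro j hj
  have h3 := norm_iteratedFDeriv_mul_le (𝕜 := ℝ) (N := ((⊤ : ℕ∞) : WithTop ℕ∞)) hf hg u
    (n := j) (by exact_mod_cast le_top)
  rw [norm_iteratedFDeriv_eq_norm_iteratedDeriv] at h3
  refine h3.trans ?_
  calc ∑ i ∈ Finset.range (j + 1), (j.choose i : ℝ) * ‖iteratedFDeriv ℝ i f u‖ *
        ‖iteratedFDeriv ℝ (j - i) g u‖
      ≤ ∑ i ∈ Finset.range (j + 1), (j.choose i : ℝ) * (C * C' * s ^ j) := by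
        refine Finset.sum_le_sum fun i hi => ?_
        have hij : i ≤ j := Nat.lt_succ_iff.1 (Finset.mem_range.1 hi)
        rw [norm_iteratedFDeriv_eq_norm_iteratedDeriv, norm_iteratedFDeriv_eq_norm_iteratedDeriv,
          mul_assoc]
        refine mul_le_mul_of_nonneg_left ?_ (Nat.cast_nonneg _)
        have h4 := h1 i (hij.trans hj)
        have h5 := h2 (j - i) (by omega)
        calc ‖iteratedDeriv i f u‖ * ‖iteratedDeriv (j - i) g u‖
            ≤ (C * s ^ i) * (C' * s ^ (j - i)) :=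
              mul_le_mul h4 h5 (norm_nonneg _) (by positivity)
          _ = C * C' * (s ^ i * s ^ (j - i)) := by ring
          _ = C * C' * s ^ j := by rw [← pow_add, Nat.add_sub_cancel' hij]
    _ = 2 ^ j * (C * C' * s ^ j) := by
        rw [← Finset.sum_mul]
        congr 1
        exact_mod_cast Nat.sum_range_choose j
    _ ≤ 8 * (C * C' * s ^ j) := by
        have h6 : (2 : ℝ) ^ j ≤ 8 := by
          calc (2 : ℝ) ^ j ≤ 2 ^ 3 := pow_le_pow_right₀ (by norm_num) hj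
            _ = 8 := by norm_num
        gcongr
    _ = 8 * C * C' * s ^ j := by ring

lemma norm_ee (x : ℝ) : ‖ee x‖ = 1 := by
  unfold ee
  exact Complex.norm_exp_ofReal_mul_I x

lemma hd_ee {R : ℝ → ℝ} {R1 : ℝ} {u : ℝ} (h : HasDerivAt R R1 u) :
    HasDerivAt (fun u => ee (R u)) (ee (R u) * ((R1 : ℂ) * Complex.I)) u := by
  unfold ee
  exact (h.ofReal_comp.mul_const Complex.I).cexp

lemma sc_ee (s C : ℝ) (R : ℝ → ℝ) (u : ℝ) (hs : 0 < s) (hC : 0 ≤ C)
    (hR : ContDiff ℝ (⊤ : ℕ∞) R) (h1 : |iteratedDeriv 1 R u| ≤ C * s)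
    (h2 : |iteratedDeriv 2 R u| ≤ C * s ^ 2) (h3 : |iteratedDeriv 3 R u| ≤ C * s ^ 3) :
    Sc s ((1 + C) ^ 3) (fun u => ee (R u)) u := by
  have hd : ∀ (j : ℕ) (v : ℝ), HasDerivAt (iteratedDeriv j R) (iteratedDeriv (j + 1) R v) v := by
    intro j v
    have h4 : Differentiable ℝ (iteratedDeriv j R) :=
      hR.differentiable_iteratedDeriv j (by exact_mod_cast WithTop.coe_lt_top j)
    rw [iteratedDeriv_succ]
    exact (h4 v).hasDerivAt
  have hd0 : ∀ v, HasDerivAt R (iteratedDeriv 1 R v) v := by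
    intro v
    have := hd 0 v
    rwa [iteratedDeriv_zero] at this
  have e1 : iteratedDeriv 1 (fun u => ee (R u)) =
      fun v => ee (R v) * (((iteratedDeriv 1 R v : ℝ) : ℂ) * Complex.I) := by
    rw [iteratedDeriv_succ, iteratedDeriv_zero]
    funext v
    exact (hd_ee (hd0 v)).deriv
  have e2 : iteratedDeriv 2 (fun u => ee (R u)) =
      fun v => ee (R v) * (((iteratedDeriv 2 R v : ℝ) : ℂ) * Complex.I -
        ((iteratedDeriv 1 R v : ℝ) : ℂ) ^ 2) := by
    rw [iteratedDeriv_succ, e1]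
    funext v
    have h5 := (hd_ee (hd0 v)).mul ((hd 1 v).ofReal_comp.mul_const Complex.I)
    refine (h5.deriv).trans ?_
    have hI := Complex.I_sq
    linear_combination (ee (R v) * ((iteratedDeriv 1 R v : ℝ) : ℂ) ^ 2) * hI
  have e3 : iteratedDeriv 3 (fun u => ee (R u)) =
      fun v => ee (R v) * (((iteratedDeriv 3 R v : ℝ) : ℂ) * Complex.I -
        3 * ((iteratedDeriv 1 R v : ℝ) : ℂ) * ((iteratedDeriv 2 R v : ℝ) : ℂ) -
        ((iteratedDeriv 1 R v : ℝ) : ℂ) ^ 3 * Complex.I) := by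
    rw [iteratedDeriv_succ, e2]
    funext v
    have h6 := ((hd 2 v).ofReal_comp.mul_const Complex.I).sub ((hd 1 v).ofReal_comp.pow 2)
    have h5 := (hd_ee (hd0 v)).mul h6
    refine (h5.deriv).trans ?_
    have hI := Complex.I_sq
    simp only [Pi.sub_apply, Pi.pow_apply]
    push_cast
    linear_combination (ee (R v) * ((iteratedDeriv 1 R v : ℝ) : ℂ) * ((iteratedDeriv 2 R v : ℝ) : ℂ)) * hI
  set a := |iteratedDeriv 1 R u| with ha
  set b := |iteratedDeriv 2 R u| with hb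
  set c := |iteratedDeriv 3 R u| with hc
  have ha0 : 0 ≤ a := abs_nonneg _
  have hb0 : 0 ≤ b := abs_nonneg _
  have hc0 : 0 ≤ c := abs_nonneg _
  have n1 : ∀ x : ℝ, ‖(x : ℂ)‖ = |x| := fun x => Complex.norm_real x
  intro j hj
  have hs2 : 0 < s ^ 2 := by positivity
  have hs3 : 0 < s ^ 3 := by positivity
  interval_cases j
  · rw [iteratedDeriv_zero, norm_ee, pow_zero, mul_one]
    exact one_le_pow₀ (by linarith)
  · rw [e1, norm_mul, norm_ee, one_mul, norm_mul, n1, Complex.norm_I, mul_one, pow_one]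
    have h7 : C * s ≤ (1 + C) ^ 3 * s := by
      have : C ≤ (1 + C) ^ 3 := by nlinarith [sq_nonneg C, mul_nonneg hC (sq_nonneg C)]
      gcongr
    exact h1.trans h7
  · rw [e2, norm_mul, norm_ee, one_mul]
    have h7 : ‖((iteratedDeriv 2 R u : ℝ) : ℂ) * Complex.I - ((iteratedDeriv 1 R u : ℝ) : ℂ) ^ 2‖ ≤
        b + a ^ 2 := by
      refine (norm_sub_le _ _).trans (le_of_eq ?_)
      rw [norm_mul, n1, Complex.norm_I, mul_one, norm_pow, n1]
    have h8 : a ^ 2 ≤ (C * s) ^ 2 := pow_le_pow_left₀ ha0 h1 2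
    have h9 : (C + C ^ 2) * s ^ 2 ≤ (1 + C) ^ 3 * s ^ 2 := by
      have : C + C ^ 2 ≤ (1 + C) ^ 3 := by nlinarith [sq_nonneg C, mul_nonneg hC (sq_nonneg C)]
      gcongr
    refine h7.trans (le_trans ?_ h9)
    nlinarith
  · rw [e3, norm_mul, norm_ee, one_mul]
    have h7 : ‖((iteratedDeriv 3 R u : ℝ) : ℂ) * Complex.I -
        3 * ((iteratedDeriv 1 R u : ℝ) : ℂ) * ((iteratedDeriv 2 R u : ℝ) : ℂ) -
        ((iteratedDeriv 1 R u : ℝ) : ℂ) ^ 3 * Complex.I‖ ≤ c + 3 * a * b + a ^ 3 := by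
      refine (norm_sub_le _ _).trans (add_le_add ((norm_sub_le _ _).trans (le_of_eq ?_))
        (le_of_eq ?_))
      · have h33 : ‖(3 : ℂ)‖ = 3 := by norm_num
        rw [norm_mul, n1, Complex.norm_I, mul_one, norm_mul, norm_mul, n1, n1, h33]
      · rw [norm_mul, Complex.norm_I, mul_one, norm_pow, n1]
    have h8 : a ^ 3 ≤ (C * s) ^ 3 := pow_le_pow_left₀ ha0 h1 3
    have h10 : a * b ≤ (C * s) * (C * s ^ 2) := mul_le_mul h1 h2 hb0 (by positivity)
    have h9 : (C + 3 * C ^ 2 + C ^ 3) * s ^ 3 ≤ (1 + C) ^ 3 * s ^ 3 := by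
      have : C + 3 * C ^ 2 + C ^ 3 ≤ (1 + C) ^ 3 := by nlinarith
      gcongr
    refine h7.trans (le_trans ?_ h9)
    nlinarith

lemma it_ofReal (R : ℝ → ℝ) (hR : ContDiff ℝ (⊤ : ℕ∞) R) (j : ℕ) :
    iteratedDeriv j (fun u => (R u : ℂ)) = fun u => ((iteratedDeriv j R u : ℝ) : ℂ) := by
  induction j with
  | zero => rw [iteratedDeriv_zero, iteratedDeriv_zero]
  | succ j ih =>
    rw [iteratedDeriv_succ, ih]
    funext v
    have h4 : Differentiable ℝ (iteratedDeriv j R) :=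
      hR.differentiable_iteratedDeriv j (by exact_mod_cast WithTop.coe_lt_top j)
    rw [iteratedDeriv_succ]
    exact (h4 v).hasDerivAt.ofReal_comp.deriv

theorem sc_thm : S_sc := by
  refine ⟨fun s C C' f g u hs hf hg h1 h2 => sc_mul s C C' f g u hs hf hg h1 h2,
    fun s C R u hs hC hR h1 h2 h3 => sc_ee s C R u hs hC hR h1 h2 h3, ?_⟩
  intro s C R u hR h j hj
  rw [it_ofReal R hR j]
  rw [Complex.norm_real]
  exact h j hj

end Pool.Agent.W366.PC
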